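import Pool.Agent.K7.H34.PB.Tr
import Pool.Agent.Y227.RT.Final

set_option autoImplicit false

open Polynomial Pool.Agent.W432.PC Pool.Agent.W432.TC Pool.Agent.Y227.SS Pool.Agent.Y227.RT
open Pool.Agent.R927
open Pool.Agent.W77.IM (CoordRing)
open Pool.Agent.K7.H34.PB (NonzeroProportion Data)

/-!
# Flat bundles on curves which contain the pull-back of a system of rank two

Let `C` be a curve of any genus over a finitely generated field of characteristic zero with a finite map
`x : C → ℙ¹`, and let `(E, ∇)` be a flat bundle of any rank on `C` (or on an open part of `C`) whose generic
fibre contains the pull-back of an irreducible Fuchsian system of rank two with rational exponents, with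
any number `n + 1` of singular points and with arbitrary accessory parameters. (If `x` is ramified over the
singular points to orders divisible by the denominators of the exponents, the pull-back has, up to a
finite group, no singularities and lives on the proper curve `C`.)

We determine all the families of exponents of codimension at most two for which (H) is not excluded: let
`θ i` be the differences of the exponents at the `n + 1` points. Then (H) fails for `(E, ∇)`, the
`p`-curvatures being nonzero for a proportion at least `ε (n) > 0` of the residue classes of primes, unless
the points are divided into two complementary sets with integral sums of the `± θ i`, or there are two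
disjoint sets of points, not all of the points, with half-integral sums of the `± θ i`, or `θ` is on one
of finitely many torsion cosets of codimension at least three. For four points and exponents of prime
denominators this is the starting result `PullbackFourPoints`; here the denominators and the number of
points are arbitrary.

Proof. The theorem for systems on the line (starting files `Y227/RT`) and the transfer of `p`-curvatures to
curves (starting file `R927/PB2`).
-/

namespace Pool.Agent.Results.MP_0707f5_ag.PullbackRankTwoFamilies

universe u v w

/-- For every number `n ≥ 1` of finite singular points there are `ε > 0` and a finite set `𝒟` of torsion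
cosets of codimension at least three (three independent relations) in the torus `(ℝ/ℤ) ^ (n + 1)` of the
exponent differences, with the following property. Consider data (`Data`: a model `E` over `R` of a flat
bundle on a curve whose generic fibre contains the pull-back of the system `d/dx - ∑ j, A j / (x - α j)`
of rank two with `n` finite singular points, spanned by `v 0`, `v 1`), such that the system is irreducible
over every field containing `R` and has rational exponents (eigenvalues `lam j l` of `A j`, `phi l` of
`∑ j, A j`) of common denominator `N`, and let `θ = theta lam phi` be the differences of the exponents at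
the `n + 1` singular points. Then one of the following holds:

* (`Splits`) the singular points are divided into two complementary sets, each with at least two points,
such that, for suitable signs, the sums of the `± θ i` over both sets are integers;
* (`HalfSums`) there are two disjoint nonempty sets of singular points, together not all of them, such
that, for suitable signs, the sums of the `± θ i` over both sets are in `1/2 + ℤ`;
* `θ` is on one of the cosets in `𝒟`;
* there are a set of at least `ε φ(N)` residue classes modulo `N` and a nonzero `g` in `R` such that the
`p`-curvature of `E` is nonzero at every closed point of `Spec R[1/g]` whose residue characteristic is a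
large prime in one of these classes (`NonzeroProportion`), and (H) fails. -/
theorem result (n : ℕ) (hn : 1 ≤ n) :
    ∃ (ε : ℝ) (𝒟 : Finset (AddSubgroup (Option (Fin n) → ℤ) × (Option (Fin n) → ℚ))), 0 < ε ∧
      (∀ C ∈ 𝒟, ∃ k : Fin 3 → Option (Fin n) → ℤ, LinearIndependent ℤ k ∧ ∀ i, k i ∈ C.1) ∧
      ∀ (R : Type u) [CommRing R] [IsDomain R] [CharZero R] [Algebra.FiniteType ℤ R]
        (F : Type v) [Field F] [Algebra R F] (V : Type w) [AddCommGroup V] [Module F V]
        (δ : Derivation R F F) (x : F) (T : R[X]) (nabla : V →+ V)
        (E : Submodule (CoordRing x T R) V) (v : Fin 2 → V) (α : Fin n → R)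
        (A : Fin n → Matrix (Fin 2) (Fin 2) R) (lam : Fin n → Fin 2 → ℚ) (phi : Fin 2 → ℚ) (N : ℕ),
        Data δ x T nabla E v α A → (∀ j, HasExponents (A j) (lam j)) →
        HasExponents (∑ j, A j) phi →
        0 < N → (∀ j l, ∃ m : ℤ, (N : ℚ) * lam j l = m) → (∀ l, ∃ m : ℤ, (N : ℚ) * phi l = m) →
        AbsIrreducible α A →
          Splits (theta lam phi) ∨ HalfSums (theta lam phi) ∨
            (∃ C ∈ 𝒟, InCoset C.1 C.2 (fun i => (theta lam phi i : ℝ))) ∨
            (NonzeroProportion nabla E N ε ∧ ¬ HypH nabla E) := by
  obtain ⟨ε, 𝒟, hε, h𝒟, h⟩ := rank_two.{u} n hn
  refine ⟨ε, 𝒟, hε, h𝒟, ?_⟩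
  intro R _ _ _ _ F _ _ V _ _ δ x T nabla E v α A lam phi N hd hlam hphi hN hNlam hNphi hirr
  rcases h R α A lam phi N hd.unit hlam hphi hN hNlam hNphi hirr with
    (h1 | h1 | h1) | ⟨⟨g, hg, S, P₀, hS, hP⟩, h3⟩
  · exact Or.inl h1
  · exact Or.inr (Or.inl h1)
  · exact Or.inr (Or.inr (Or.inl h1))
  · exact Or.inr (Or.inr (Or.inr ⟨hd.proportion ⟨S, g, P₀, hS, hg, fun p hp hpP hpS 𝔪 _ hpm hgm =>
      hP p hp hpP hpS 𝔪 hpm hgm⟩, fun hH => h3 (hd.condII hH)⟩))

end Pool.Agent.Results.MP_0707f5_ag.PullbackRankTwoFamilies
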