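import Pool.Agent.K7.H34.PB.Tr
import Pool.Agent.TH571.WX.Sym

set_option autoImplicit false

open Polynomial Pool.Agent.W432.PC Pool.Agent.W432.TC Pool.Agent.R927
open Pool.Agent.W77.IM (CoordRing)
open Pool.Agent.K7.H34.PB (AlgSections FullSections Data full)

/-!
# Pull-backs of systems with exponents in the torus of a reductive group

Let `C` be a curve of any genus over a finitely generated field of characteristic zero with a finite map
`x : C → ℙ¹`, and let `(E, ∇)` be a flat bundle on `C` (or on an open part of `C`) whose generic fibre
contains the pull-back of a Fuchsian system `d/dx - ∑ j, A j / (x - α j)` whose exponents at every singular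
point are, modulo `ℤ`, the values of fixed distinct weights `χ l` at a point of a torus of dimension `m`
(for instance residues in the Lie algebra of a symplectic or orthogonal group, in a fixed representation
with distinct weights). The accessory parameters, the singular points, the map and the curve are arbitrary.
(If `x` is ramified over the singular points to orders divisible by the denominators of the exponents, the
pull-back has, up to a finite group, no singularities and lives on the proper curve `C`.)

We show that, outside of finitely many torsion cosets of the torus of these exponents, of codimension at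
least `min (m + 1) 3` (at least `m + 1` for the weights `± e k` and possibly `0`), which depend only on the
weights and the number of singular points, the pull-back has a full set of algebraic sections or (H)
fails for `(E, ∇)`.

Proof. The dichotomy for systems on the line (starting files `TH571/WX`), the transfer of `p`-curvatures
to curves (starting file `R927/PB2`), and the pull-back of the algebraic solutions (`K7/H34/PB/Tr`).
-/

namespace Pool.Agent.Results.MP_0707f5_ag.PullbackReductiveTori

universe u v w

/-- There are (at least) `d` independent relations. -/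
def HasRelations {I : Type*} (L : AddSubgroup (I → ℤ)) (d : ℕ) : Prop :=
  ∃ v : Fin d → I → ℤ, LinearIndependent ℤ v ∧ ∀ k, v k ∈ L

/-- Every weight is `0`, `e k` or `-e k` for some `k`, and with every weight its negative is one. -/
def SymmetricWeights {r m : ℕ} (χ : Fin r → Fin m → ℤ) : Prop :=
  (∀ l, χ l = 0 ∨ ∃ k, χ l = Pi.single k 1 ∨ χ l = -Pi.single k 1) ∧ ∀ l, ∃ l', χ l' = -χ l

/-- Let `n ≥ 1` and let the weights `χ l ∈ ℤ ^ m`, `l < r`, be pairwise distinct and span `ℚ ^ m`. There is
a finite set `𝒟` of torsion cosets in the torus with the coordinates `y (p, k)`, `p` one of the `n + 1`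
singular points (`none` is the point at infinity), `k < m`, each with at least `min (m + 1) 3` independent
relations, and at least `m + 1` if the weights are symmetric, such that for all data (`Data`: a model `E`
over `R` of a flat bundle on a curve whose generic fibre contains the pull-back of the system
`d/dx - ∑ j, A j / (x - α j)`, spanned by the `v l`) with a system whose exponents `lam p l` (eigenvalues
of `A j` for `p = some j`, and of `-∑ j, A j` for `p = none`) are rational and congruent to
`∑ k, χ l k * y (p, k)` modulo `ℤ`, with `N y` integral, and `y` not on one of the cosets in `𝒟`: the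
pull-back has a full set of algebraic sections (`AlgSections`), or the `p`-curvature of `E` is nonzero at
all closed points of a dense open subset of `Spec R` whose residue characteristic is a large prime in one
residue class modulo `N`, prime to `N` (`BadModelMod`), and (H) fails for `E`. If the `v l` span `V`, (H)
implies that `V` has a full set of algebraic sections (`FullSections`). -/
theorem result (n r m : ℕ) (hn : 0 < n) (χ : Fin r → Fin m → ℤ) (hχ : Function.Injective χ)
    (hspan : ∀ v : Fin m → ℚ, (∀ l, ∑ k, (χ l k : ℚ) * v k = 0) → v = 0) :
    ∃ 𝒟 : Finset (AddSubgroup (Option (Fin n) × Fin m → ℤ) × (Option (Fin n) × Fin m → ℚ)),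
      (∀ C ∈ 𝒟, HasRelations C.1 (min (m + 1) 3) ∧
        (SymmetricWeights χ → HasRelations C.1 (m + 1))) ∧
      ∀ (R : Type u) [CommRing R] [IsDomain R] [CharZero R] [Algebra.FiniteType ℤ R]
        (F : Type v) [Field F] [Algebra R F] (V : Type w) [AddCommGroup V] [Module F V]
        (δ : Derivation R F F) (x : F) (T : R[X]) (nabla : V →+ V)
        (E : Submodule (CoordRing x T R) V) (v : Fin r → V) (α : Fin n → R)
        (A : Fin n → Matrix (Fin r) (Fin r) R) (lam : Option (Fin n) → Fin r → ℚ)
        (y : Option (Fin n) × Fin m → ℚ) (N : ℕ), Data δ x T nabla E v α A →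
        (∀ j, HasExponents (A j) (lam (some j))) →
        HasExponents (∑ j, A j) (fun l => -lam none l) →
        (∀ p l, ∃ k : ℤ, lam p l - ∑ i, (χ l i : ℚ) * y (p, i) = k) →
        0 < N → (∀ i, ∃ k : ℤ, (N : ℚ) * y i = k) →
        (¬ ∃ C ∈ 𝒟, InCoset C.1 C.2 (fun i => ((y i : ℚ) : ℝ))) →
        (AlgSections δ nabla v ∨ (BadModelMod nabla E N ∧ ¬ HypH nabla E)) ∧
        (Submodule.span F (Set.range v) = ⊤ → HypH nabla E → FullSections δ nabla r) := by
  obtain ⟨𝒟, h1, h2⟩ := Pool.Agent.TH571.WX.finalS.{u} n r m hn χ hχ hspan
  refine ⟨𝒟, fun C hC => ⟨(h1 C hC).1.1, (h1 C hC).2⟩, ?_⟩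
  intro R _ _ _ _ F _ _ V _ _ δ x T nabla E v α A lam y N hd hlam hphi hy hN hNy hC
  have key : AlgSections δ nabla v ∨ (BadModelMod nabla E N ∧ ¬ HypH nabla E) := by
    rcases h2 R α A lam y N hd.unit hlam hphi hy hN hNy with h3 | h3 | ⟨h3, h4⟩
    · exact absurd h3 hC
    · exact Or.inl (Pool.Agent.K7.H34.PB.algSections_of hd.inj hd.coord hd.pullback h3)
    · obtain ⟨a, g, ha, hg, P₀, hP⟩ := h3
      exact Or.inr ⟨hd.badMod ⟨a, ha, g, hg, P₀, hP⟩, fun hH => h4 (hd.condII hH)⟩
  refine ⟨key, fun hs hH => ?_⟩
  rcases key with h3 | ⟨-, h3⟩
  · exact full hd.pullback.indep hs h3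
  · exact absurd hH h3

end Pool.Agent.Results.MP_0707f5_ag.PullbackReductiveTori
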