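import Pool.Agent.K7.H34.PB.Tr
import Pool.Agent.TH571.GP.Thrice

set_option autoImplicit false

open Polynomial Pool.Agent.W432.PC Pool.Agent.W432.TC Pool.Agent.R927
open Pool.Agent.TH571.GP (csum spectral')
open Pool.Agent.W77.IM (CoordRing)
open Pool.Agent.K7.H34.PB (Data)

/-!
# Pull-backs of systems of a given spectral type

Let `C` be a curve of any genus over a finitely generated field of characteristic zero with a finite map
`x : C → ℙ¹`, and let `(E, ∇)` be a flat bundle on `C` (or on an open part of `C`) whose generic fibre
contains the pull-back of a Fuchsian system `d/dx - ∑ j, A j / (x - α j)` with rational exponents of a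
given spectral type (prescribed multiplicities of the exponents modulo `ℤ` at each of the `n + 1` singular
points; for example rigid systems). The accessory parameters, the positions of the singular points, the
map `x` and the rest of the bundle are arbitrary, and the system may be reducible. (If `x` is ramified
over the singular points to orders divisible by the denominators of the exponents, the pull-back has, up
to a finite group, no singularities and lives on the proper curve `C`.)

The result `PullbackStructure` says nothing on a given spectral type, since the exponents of a spectral
type form a subtorus of higher codimension in the torus of all exponents. Here we show for every spectral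
type that (H) fails for `(E, ∇)` outside of finitely many torsion cosets which meet the torus of the
exponents of this type in codimension at least `r / m - 1`, `m` the maximal multiplicity (one class may be
larger at all but one of the points).

Proof. The theorem for systems on the line (starting file `TH571/GP`), the transfer of `p`-curvatures to
curves (starting file `R927/PB2`).
-/

namespace Pool.Agent.Results.MP_0707f5_ag.PullbackSpectralTypes

universe u v w

/-- Let the exponents at each of the `n + 1` singular points be divided into classes by labels `ty` (at the
point `p`, the exponents with the numbers `l`, `l'` are in the same class if `ty p l = ty p l'`), such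
that all classes have at most `m` elements, except possibly one class `big p` at each of the points
`p ≠ p₀`. Then there is a finite set `𝒟` of torsion cosets in the torus of exponents, each with
`k ≥ r / m` relations `f j` which are independent as relations between the classes (the class sums
`csum ty (f j)` of their coefficients are linearly independent), so that it meets the torus of the
exponents of this spectral type in codimension at least `k - 1`, such that for all data (`Data`: a model
`E` over `R` of a flat bundle on a curve whose generic fibre contains the pull-back of the system
`d/dx - ∑ j, A j / (x - α j)` of rank `r`, spanned by the `v l`) with a system with rational exponents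
(eigenvalues `lam j.castSucc l` of `A j`, `lam (Fin.last n) l` of `-∑ j, A j`) with common denominator
`N`, congruent modulo `ℤ` if they are in the same class, one of the following holds:

* the exponents are on one of the cosets in `𝒟`;
* there are a residue class modulo `N`, prime to `N`, and a nonzero `g` in `R` such that the `p`-curvature
of `E` is nonzero at all the closed points of `Spec R[1/g]` whose residue characteristic is a large prime
in that class (`BadModelMod`), and (H) fails for `E`. -/
theorem result (n r : ℕ) (ty : Fin (n + 1) → Fin r → Fin r) (p₀ : Fin (n + 1))
    (big : Fin (n + 1) → Fin r) (m : ℕ)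
    (hm : ∀ p l, p = p₀ ∨ ty p l ≠ big p →
      (Finset.univ.filter fun l' => ty p l' = ty p l).card ≤ m) :
    ∃ 𝒟 : Finset (AddSubgroup (Fin (n + 1) × Fin r → ℤ) × (Fin (n + 1) × Fin r → ℚ)),
      (∀ C ∈ 𝒟, ∃ (k : ℕ) (f : Fin k → Fin (n + 1) × Fin r → ℤ), r ≤ k * m ∧
        LinearIndependent ℤ (fun j => csum ty (f j)) ∧ ∀ j, f j ∈ C.1) ∧
      ∀ (R : Type u) [CommRing R] [IsDomain R] [CharZero R] [Algebra.FiniteType ℤ R]
        (F : Type v) [Field F] [Algebra R F] (V : Type w) [AddCommGroup V] [Module F V]
        (δ : Derivation R F F) (x : F) (T : R[X]) (nabla : V →+ V)
        (E : Submodule (CoordRing x T R) V) (v : Fin r → V) (α : Fin n → R)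
        (A : Fin n → Matrix (Fin r) (Fin r) R) (lam : Fin (n + 1) → Fin r → ℚ) (N : ℕ),
        Data δ x T nabla E v α A →
        (∀ j : Fin n, HasExponents (A j) (lam j.castSucc)) →
        HasExponents (∑ j, A j) (fun l => -lam (Fin.last n) l) →
        (∀ j l l', ty j l = ty j l' → ∃ z : ℤ, lam j l - lam j l' = z) →
        0 < N → (∀ j l, ∃ m : ℤ, (N : ℚ) * lam j l = m) →
        (∃ C ∈ 𝒟, InCoset C.1 C.2 (fun i => ((lam i.1 i.2 : ℚ) : ℝ))) ∨
          (BadModelMod nabla E N ∧ ¬ HypH nabla E) := by
  obtain ⟨𝒟, h𝒟, h⟩ := spectral'.{u} n r ty p₀ big m hm
  refine ⟨𝒟, h𝒟, ?_⟩
  intro R _ _ _ _ F _ _ V _ _ δ x T nabla E v α A lam N hd hlam hinf hty hN hNlam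
  rcases h R α A lam N hd.unit hlam hinf hty hN hNlam with h1 | ⟨⟨a, ha, P₀, hP⟩, h3⟩
  · exact Or.inl h1
  · exact Or.inr ⟨hd.badMod ⟨a, ha, 1, one_ne_zero, P₀, fun p hp hpP hap 𝔪 _ hpm _ =>
      hP p hp hpP hap 𝔪 hpm⟩, fun hH => h3 (hd.condII hH)⟩

end Pool.Agent.Results.MP_0707f5_ag.PullbackSpectralTypes
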