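import Pool.Agent.K7.H34.PB.Struct

set_option autoImplicit false

open Polynomial Pool.Agent.W432.PC Pool.Agent.W432.TC Pool.Agent.Y227.SS Pool.Agent.R927
open Pool.Agent.W432.HK (CommonDen)
open Pool.Agent.Y227.TP (Few)
open Pool.Agent.W77.IM (CoordRing)
open Pool.Agent.K7.H34.PB (AlgSections NonzeroProportion Data BadAt Structured)

/-!
# Flat bundles on curves which contain the pull-back of an arbitrary Fuchsian system

Let `C` be a curve of any genus over a finitely generated field of characteristic zero with a finite map
`x : C → ℙ¹`, and let `(E, ∇)` be a flat bundle on `C` (or on an open part of `C`) whose generic fibre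
contains the pull-back of a Fuchsian system `d/dx - ∑ j, A j / (x - α j)` of any rank `r` with any number
`n + 1` of singular points. The residues, the positions of the singular points, the map `x`, the curve `C`
and the rest of the bundle `E` are arbitrary; nothing is assumed on the exponents. (If `x` is ramified
over the singular points to orders divisible by the denominators of the exponents, the pull-back has, up
to a finite group, no singularities and lives on the proper curve `C`.)

The theorem is a dichotomy which depends, apart from the failure of (H), only on the exponents. Either (H)
fails for `(E, ∇)`, with a lower bound `ε = ε (n, r) > 0` for the proportion of the primes with nonvanishing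
`p`-curvature if the exponents are rational or the field is a number field; or the residues are
diagonalizable with rational eigenvalues, all the Galois conjugates of the local monodromies are the local
monodromies of a unitary representation (of an irreducible one, if the system is irreducible; in terms
of parabolic bundles), and the pull-back has a full set of algebraic sections, unless the exponents
are on one of finitely many torsion cosets, each with at least `r + 1` independent relations, which depend
only on `n` and `r`.

Proof. For rational exponents: the theorems for systems on the line (starting files `Y227/SS`, `Y227/UD`).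
If the `p`-curvature vanishes at a closed point, the residues are diagonalizable there with eigenvalues in
`𝔽_p`, so if it vanishes on a dense open set (or for many primes) they are rational and the residues
are diagonalizable. The `p`-curvatures are transferred to the curve by the starting file `R927/PB2`, and
the algebraic solutions of the system are pulled back (`K7/H34/PB`).
-/

namespace Pool.Agent.Results.MP_0707f5_ag.PullbackStructure

universe u v w

/-- For every rank `r` and number `n` of finite singular points there are `ε > 0` and finite sets `𝒟`, `𝒟'`
of torsion cosets in the torus of exponents, those in `𝒟` with all points the weights of semistable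
parabolic bundles of parabolic degree zero on the projective line over `ℂ` (`SemistableWeights`), those
in `𝒟'` with at least `r + 1` independent integral relations, such that for all data (`Data`: a model `E`
over `R` of a flat bundle on a curve whose generic fibre contains the pull-back of the system
`d/dx - ∑ j, A j / (x - α j)` of rank `r`, spanned by the `v l`) one of the following holds.

* (1) (H) fails for `E`; for every common denominator `N` of the exponents, if they are rational, the
`p`-curvatures of `E` are nonzero for a proportion at least `ε` of the residue classes modulo `N`
(`NonzeroProportion`: at all the closed points of a dense open subset of `Spec R` whose residue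
characteristic is a large prime in one of these classes); and if `R` is algebraic over `ℤ`, it is
not true that for arbitrarily large `X` there are fewer than `ε π(X)` primes `p ≤ X` such that the
`p`-curvature of `E` is nonzero at some closed point of residue characteristic `p`
(`Few (BadAt nabla E) ε`).

* (2) (`Structured`) The `A j` and `∑ j, A j` are diagonalizable with rational eigenvalues; for a common
denominator `N` of these exponents, all their multiples by integers prime to `N` are the weights of
semistable parabolic bundles of parabolic degree zero, and of stable ones if the system is irreducible over
every field which contains `R`; the exponents are on one of the cosets in `𝒟`; and, if `n ≥ 2`, the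
pull-back has a full set of algebraic sections (`AlgSections`) or the exponents are on one of the cosets in
`𝒟'`.

So if (H) holds and the exponents are not on one of the finitely many cosets in `𝒟'`, the pull-back has a
full set of algebraic sections; if the `v l` span `V`, it is `E` itself. -/
theorem result (n r : ℕ) :
    ∃ (ε : ℝ) (𝒟 𝒟' : Finset (AddSubgroup (ExponentIndex n r → ℤ) × (ExponentIndex n r → ℚ))),
      0 < ε ∧
      (∀ C ∈ 𝒟, ∀ z : ExponentIndex n r → ℝ, InCoset C.1 C.2 z →
        SemistableWeights ℂ (fun j l => z (Sum.inl (j, l))) (fun l => z (Sum.inr l))) ∧
      (∀ C ∈ 𝒟', ∃ m : Fin (r + 1) → ExponentIndex n r → ℤ,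
        LinearIndependent ℤ m ∧ ∀ k, m k ∈ C.1) ∧
      ∀ (R : Type u) [CommRing R] [IsDomain R] [CharZero R] [Algebra.FiniteType ℤ R]
        (F : Type v) [Field F] [Algebra R F] (V : Type w) [AddCommGroup V] [Module F V]
        (δ : Derivation R F F) (x : F) (T : R[X]) (nabla : V →+ V)
        (E : Submodule (CoordRing x T R) V) (v : Fin r → V) (α : Fin n → R)
        (A : Fin n → Matrix (Fin r) (Fin r) R), Data δ x T nabla E v α A →
        (¬ HypH nabla E ∧
          (∀ lam phi N, (∀ j, HasExponents (A j) (lam j)) → HasExponents (∑ j, A j) phi →
            CommonDen lam phi N → NonzeroProportion nabla E N ε) ∧
          (Algebra.IsAlgebraic ℤ R → ¬ Few (BadAt nabla E) ε)) ∨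
        Structured α A 𝒟 𝒟' (AlgSections δ nabla v) := by
  obtain ⟨ε, 𝒟, 𝒟', hε, h𝒟, h𝒟', h⟩ := Pool.Agent.K7.H34.PB.sys_structure.{u} n r
  refine ⟨ε / 4, 𝒟, 𝒟', by positivity, h𝒟, h𝒟', ?_⟩
  intro R _ _ _ _ F _ _ V _ _ δ x T nabla E v α A hd
  have himp := Pool.Agent.K7.H34.PB.algSections_of hd.inj hd.coord hd.pullback
  obtain ⟨h1, h2, h3⟩ := h R α A hd.unit
  refine or_iff_not_imp_right.mpr fun hS => ⟨fun hH => hS ((h2 (hd.condII hH)).imp himp), ?_, ?_⟩
  · intro lam phi N hlam hphi hN
    rcases h1 lam phi N hlam hphi hN with h4 | h4
    · exact absurd (h4.imp himp) hS
    · exact hd.proportion (h4.mono (by linarith))
  · intro hR hfew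
    have := hR
    exact hS ((h3 hR (hd.few (by linarith) hfew)).imp himp)

end Pool.Agent.Results.MP_0707f5_ag.PullbackStructure
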